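import Pool.Agent.W544.PG.Defs6
import Pool.Agent.W74.PG.HCT

/-!
# PG5-XDI (helper883)
-/

set_option autoImplicit false

open Matrix Finset Module

namespace Pool.Agent.W883.PG

open Pool.Agent.W544.PG

section generic

variable {κ : Type} [Fintype κ] [DecidableEq κ]

lemma act2 (Y : Matrix κ κ ℂ) (B : Matrix κ κ ℚ) (J : Fin 2 → κ) :
    act Y (cx (fun J : Fin 2 → κ => B (J 0) (J 1))) J =
      ∑ l, Y l (J 0) * (B l (J 1) : ℂ) + ∑ l, (B (J 0) l : ℂ) * Y l (J 1) := by
  unfold act cx
  rw [Fin.sum_univ_two]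
  congr 1
  refine Finset.sum_congr rfl fun l _ => ?_
  rw [mul_comm]
  simp

lemma two {X Y : Matrix κ κ ℂ} (hY : Y ∈ hX X) (B : Matrix κ κ ℚ)
    (hB : ∀ p q, ∑ l, X l p * (B l q : ℂ) + ∑ l, (B p l : ℂ) * X l q = 0) (p q : κ) :
    ∑ l, Y l p * (B l q : ℂ) + ∑ l, (B p l : ℂ) * Y l q = 0 := by
  have h1 : act X (cx (fun J : Fin 2 → κ => B (J 0) (J 1))) = 0 := by
    funext J
    rw [act2]
    exact hB _ _
  have h2 := congrFun (hY 2 _ h1) ![p, q]
  rw [act2] at h2
  exact h2

lemma one {X Y : Matrix κ κ ℂ} (hY : Y ∈ hX X) (p : κ) (hp : ∀ q, X p q = 0) (q : κ) :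
    Y p q = 0 := by
  have key : ∀ (M : Matrix κ κ ℂ) (J : Fin 1 → κ),
      act M (cx (fun J : Fin 1 → κ => if J 0 = p then (1 : ℚ) else 0)) J = M p (J 0) := by
    intro M J
    unfold act cx
    rw [Fin.sum_univ_one, Finset.sum_eq_single p]
    · simp
    · intro l _ hl
      simp [hl]
    · intro h
      exact absurd (Finset.mem_univ _) h
  have h1 : act X (cx (fun J : Fin 1 → κ => if J 0 = p then (1 : ℚ) else 0)) = 0 := by
    funext J
    rw [key]
    exact hp _
  have h2 := congrFun (hY 1 _ h1) ![q]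
  rw [key] at h2
  exact h2

end generic

lemma W_ne {w : ℕ} (W : HW w) (u : Fin w → ℂ) (hu : mC W.E *ᵥ u = 0) : u = 0 := by
  by_contra hne
  set A : Matrix (Fin w) (Fin w) ℂ := (2 * Complex.I) • W.y with hA
  set v : Fin w → ℂ := (-(2 * Complex.I)) • (W.y *ᵥ u) with hv
  have h1 : A *ᵥ v = u := by
    rw [hA, hv, Matrix.mulVec_smul, Matrix.smul_mulVec, Matrix.mulVec_mulVec, smul_smul]
    have h2 : -(2 * Complex.I) * (2 * Complex.I) = 4 := by
      have := Complex.I_mul_I
      linear_combination (-4) * this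
    rw [h2, ← Matrix.smul_mulVec, W.sq, Matrix.one_mulVec]
  have hv0 : v ≠ 0 := by
    intro h0
    rw [h0, Matrix.mulVec_zero] at h1
    exact hne h1.symm
  have h3 := W.pos v hv0
  rw [← hA, ← Matrix.mulVec_mulVec, h1, hu] at h3
  simp at h3

lemma T_ne {n : ℕ} (T : HS n) (u : Fin n → ℂ) (hu : mC T.Q *ᵥ u = 0) : u = 0 := by
  have hdet : (mC T.Q).det ≠ 0 := by
    have e : (mC T.Q).det = ((T.Q.det : ℚ) : ℂ) := by
      have := (RingHom.map_det (Rat.castHom ℂ) T.Q)
      rw [show (mC T.Q) = (Rat.castHom ℂ).mapMatrix T.Q from rfl, ← this]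
      rfl
    rw [e]
    exact_mod_cast Pool.Agent.W74.PG.det_ne T
  exact Matrix.eq_zero_of_mulVec_eq_zero hdet hu

theorem xdi : S_xdi := by
  intro n r w s T W c hQ hx Y hY
  classical
  -- skewness of `x`
  have hsk : ∀ p q, ∑ l, T.x l p * (T.Q l q : ℂ) + ∑ l, (T.Q p l : ℂ) * T.x l q = 0 := by
    intro p q
    have := congrFun (congrFun T.skew p) q
    simpa [Matrix.add_apply, Matrix.mul_apply, Matrix.transpose_apply, mC] using this
  have hskW : ∀ p q, ∑ l, W.y l p * (W.E l q : ℂ) + ∑ l, (W.E p l : ℂ) * W.y l q = 0 := by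
    intro p q
    have := congrFun (congrFun W.skew p) q
    simpa [Matrix.add_apply, Matrix.mul_apply, Matrix.transpose_apply, mC] using this
  -- the rows in `Q^s`
  have hrow : ∀ (a : Fin s) q, Y (.inl (.inl a)) q = 0 := by
    intro a q
    refine one hY _ ?_ q
    intro q
    rcases q with (q | q) | q <;> simp [xT, HS.xS]
  -- the forms of the blocks
  set Bi : Fin r → Matrix ((Fin s ⊕ Fin n) ⊕ Fin w) ((Fin s ⊕ Fin n) ⊕ Fin w) ℚ := fun i =>
    fromBlocks (fromBlocks 0 0 0 (Matrix.of fun a b => if c a = i then T.Q a b else 0)) 0 0 0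
    with hBi
  have hxi : ∀ (i : Fin r) (a b : Fin n),
      ∑ l, T.x l a * (((if c l = i then T.Q l b else 0 : ℚ)) : ℂ) +
        ∑ l, (((if c a = i then T.Q a l else 0 : ℚ)) : ℂ) * T.x l b = 0 := by
    intro i a b
    by_cases h : c a = i
    · rw [← hsk a b]
      congr 1
      · apply Finset.sum_congr rfl
        intro l _
        by_cases hl : c l = i
        · rw [if_pos hl]
        · have h0 : T.x l a = 0 := hx l a (by rw [h]; exact hl)
          rw [h0, zero_mul, zero_mul]
      · apply Finset.sum_congr rfl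
        intro l _
        rw [if_pos h]
    · rw [Finset.sum_eq_zero, Finset.sum_eq_zero, add_zero]
      · intro l _
        rw [if_neg h, Rat.cast_zero, zero_mul]
      · intro l _
        by_cases hl : c l = i
        · have h0 : T.x l a = 0 := hx l a (by rw [hl]; exact fun e => h e.symm)
          rw [h0, zero_mul]
        · rw [if_neg hl, Rat.cast_zero, mul_zero]
  have hBiX : ∀ (i : Fin r) p q, ∑ l, xT T W s l p * (Bi i l q : ℂ) +
      ∑ l, (Bi i p l : ℂ) * xT T W s l q = 0 := by
    intro i p q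
    simp only [Fintype.sum_sum_type]
    rcases p with (p | p) | p <;> rcases q with (q | q) | q <;>
      simp [xT, HS.xS, hBi]
    have := hxi i p q
    simpa using this
  have hBiY := fun i => two hY (Bi i) (hBiX i)
  -- T-rows
  have hTq : ∀ q, (∀ a : Fin n, q ≠ .inl (.inr a)) → ∀ a : Fin n, Y (.inl (.inr a)) q = 0 := by
    intro q hq
    have hu : mC T.Q *ᵥ (fun l => Y (.inl (.inr l)) q) = 0 := by
      funext a
      show ∑ l, (T.Q a l : ℂ) * Y (.inl (.inr l)) q = 0
      have h1 := hBiY (c a) (.inl (.inr a)) q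
      simp only [Fintype.sum_sum_type] at h1
      rcases q with (q | q) | q
      · simpa [hBi] using h1
      · exact absurd rfl (hq q)
      · simpa [hBi] using h1
    have h2 := T_ne T _ hu
    exact fun a => congrFun h2 a
  -- W-rows
  have hWX : ∀ p q, ∑ l, xT T W s l p *
      ((fromBlocks 0 0 0 W.E : Matrix ((Fin s ⊕ Fin n) ⊕ Fin w) ((Fin s ⊕ Fin n) ⊕ Fin w) ℚ) l q : ℂ)
      + ∑ l, ((fromBlocks 0 0 0 W.E :
        Matrix ((Fin s ⊕ Fin n) ⊕ Fin w) ((Fin s ⊕ Fin n) ⊕ Fin w) ℚ) p l : ℂ) *
        xT T W s l q = 0 := by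
    intro p q
    simp only [Fintype.sum_sum_type]
    rcases p with (p | p) | p <;> rcases q with (q | q) | q <;>
      simp [xT, HS.xS]
    have := hskW p q
    simpa using this
  have hWY := two hY _ hWX
  have hWq : ∀ q, (∀ a : Fin w, q ≠ .inr a) → ∀ a : Fin w, Y (.inr a) q = 0 := by
    intro q hq
    have hu : mC W.E *ᵥ (fun l => Y (.inr l) q) = 0 := by
      funext a
      show ∑ l, (W.E a l : ℂ) * Y (.inr l) q = 0
      have h1 := hWY (.inr a) q
      simp only [Fintype.sum_sum_type] at h1
      rcases q with (q | q) | q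
      · simpa using h1
      · simpa using h1
      · exact absurd rfl (hq q)
    have h2 := W_ne W _ hu
    exact fun a => congrFun h2 a
  -- the block of T
  set Z : Matrix (Fin n) (Fin n) ℂ := Matrix.of fun a b => Y (.inl (.inr a)) (.inl (.inr b)) with hZ
  have hZi : ∀ (i : Fin r) (a b : Fin n),
      ∑ l, Z l a * (((if c l = i then T.Q l b else 0 : ℚ)) : ℂ) +
        ∑ l, (((if c a = i then T.Q a l else 0 : ℚ)) : ℂ) * Z l b = 0 := by
    intro i a b
    have h1 := hBiY i (.inl (.inr a)) (.inl (.inr b))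
    simp only [Fintype.sum_sum_type] at h1
    simpa [hBi, hZ] using h1
  refine ⟨Z, Matrix.of fun a b => Y (.inr a) (.inr b), ?_, ?_, ?_⟩
  · ext p q
    rcases p with (p | p) | p
    · rw [hrow]
      rcases q with (q | q) | q <;> simp
    · rcases q with (q | q) | q
      · rw [hTq _ (by simp) p]
        simp
      · simp [hZ]
      · rw [hTq _ (by simp) p]
        simp
    · rcases q with (q | q) | q
      · rw [hWq _ (by simp) p]
        simp
      · rw [hWq _ (by simp) p]
        simp
      · simp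
  · -- BD
    intro a b hab
    set i := c a with hi
    have hrow' : ∀ p, c p = i → ∑ l, (T.Q p l : ℂ) * Z l b = 0 := by
      intro p hp
      have h := hZi i p b
      rw [Finset.sum_eq_zero, zero_add] at h
      · rw [← h]
        apply Finset.sum_congr rfl
        intro l _
        rw [if_pos hp]
      · intro l _
        by_cases hl : c l = i
        · have h0 : T.Q l b = 0 := hQ l b (by rw [hl]; exact hab)
          rw [if_pos hl, h0, Rat.cast_zero, mul_zero]
        · rw [if_neg hl, Rat.cast_zero, mul_zero]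
    let u : Fin n → ℂ := fun l => if c l = i then Z l b else 0
    have hu : mC T.Q *ᵥ u = 0 := by
      funext p
      show ∑ l, (T.Q p l : ℂ) * u l = 0
      by_cases hp : c p = i
      · rw [← hrow' p hp]
        apply Finset.sum_congr rfl
        intro l _
        by_cases hl : c l = i
        · show _ * (if c l = i then Z l b else 0) = _
          rw [if_pos hl]
        · have h0 : T.Q p l = 0 := hQ p l (by rw [hp]; exact fun e => hl e.symm)
          rw [h0, Rat.cast_zero, zero_mul, zero_mul]
      · apply Finset.sum_eq_zero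
        intro l _
        show _ * (if c l = i then Z l b else 0) = _
        by_cases hl : c l = i
        · have h0 : T.Q p l = 0 := hQ p l (by rw [hl]; exact hp)
          rw [h0, Rat.cast_zero, zero_mul]
        · rw [if_neg hl, mul_zero]
    have hw0 := T_ne T u hu
    have h3 := congrFun hw0 a
    have h4 : u a = Z a b := if_pos hi.symm
    rw [← h4, h3]
    rfl
  · -- skewness
    ext a b
    have h1 : ∑ i, (∑ l, Z l a * (((if c l = i then T.Q l b else 0 : ℚ)) : ℂ) +
        ∑ l, (((if c a = i then T.Q a l else 0 : ℚ)) : ℂ) * Z l b) = 0 :=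
      Finset.sum_eq_zero fun i _ => hZi i a b
    rw [Finset.sum_add_distrib, Finset.sum_comm, Finset.sum_comm (f := fun i l =>
      (((if c a = i then T.Q a l else 0 : ℚ)) : ℂ) * Z l b)] at h1
    have h2 : ∀ l, ∑ i, Z l a * (((if c l = i then T.Q l b else 0 : ℚ)) : ℂ) =
        Z l a * (T.Q l b : ℂ) := by
      intro l
      rw [Finset.sum_eq_single (c l)]
      · rw [if_pos rfl]
      · intro i _ hi
        rw [if_neg (Ne.symm hi), Rat.cast_zero, mul_zero]
      · intro h
        exact absurd (Finset.mem_univ _) h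
    have h3 : ∀ l, ∑ i, (((if c a = i then T.Q a l else 0 : ℚ)) : ℂ) * Z l b =
        (T.Q a l : ℂ) * Z l b := by
      intro l
      rw [Finset.sum_eq_single (c a)]
      · rw [if_pos rfl]
      · intro i _ hi
        rw [if_neg (Ne.symm hi), Rat.cast_zero, zero_mul]
      · intro h
        exact absurd (Finset.mem_univ _) h
    rw [Finset.sum_congr rfl (fun l _ => h2 l), Finset.sum_congr rfl (fun l _ => h3 l)] at h1
    simpa [Matrix.add_apply, Matrix.mul_apply, Matrix.transpose_apply, mC] using h1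

end Pool.Agent.W883.PG
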